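import Pool.Agent.Helper3.TG.GoalsTr
import Pool.Agent.Helper44.ZH.NRH

/-!
# Project TG (MP_a41896_nt), packet TG-GENP
-/

set_option autoImplicit false

open MvPolynomial

namespace Pool.Agent.Helper20.TG.GENP

open WeierstrassCurve
open Pool.Agent.Helper3.TG

theorem TH_map {R S : Type} [CommRing R] [CommRing S] (φ : R →+* S) (W : WeierstrassCurve R)
    (x y t : R) : φ (TH W x y t) = TH (W.map φ) (φ x) (φ y) (φ t) := by
  have h2 : φ 2 = 2 := map_ofNat φ 2
  simp [TH, WeierstrassCurve.map_b₂, WeierstrassCurve.map_b₄, WeierstrassCurve.map_b₆,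
    WeierstrassCurve.map_b₈, h2]

theorem aeval_ThP {K σ Ω : Type} [Field K] [Field Ω] [Algebra K Ω] (w : Affine K) (a b c : σ)
    (P : σ → Ω) :
    aeval P (ThP w a b c) = TH (w.map (algebraMap K Ω)) (P a) (P b) (P c) := by
  have h := TH_map (aeval (R := K) P : MvPolynomial σ K →ₐ[K] Ω).toRingHom
    (w.map (C : K →+* MvPolynomial σ K)) (X a) (X b) (X c)
  have e : WeierstrassCurve.map (w.map (C : K →+* MvPolynomial σ K))
      (aeval (R := K) P : MvPolynomial σ K →ₐ[K] Ω).toRingHom = w.map (algebraMap K Ω) := by
    change WeierstrassCurve.map (WeierstrassCurve.map w _) _ = WeierstrassCurve.map w _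
    rw [WeierstrassCurve.map_map]
    congr 1
    ext k
    simp
  rw [e] at h
  unfold ThP
  have h2 : ∀ i, (aeval (R := K) P : MvPolynomial σ K →ₐ[K] Ω).toRingHom (X i) = P i := by
    intro i
    simp
  rw [h2, h2, h2] at h
  exact h

theorem eval_ThP {K σ : Type} [Field K] (w : Affine K) (a b c : σ) (P : σ → K) :
    eval P (ThP w a b c) = TH w (P a) (P b) (P c) := by
  have h := aeval_ThP w a b c P
  have e : w.map (algebraMap K K) = w := by
    exact WeierstrassCurve.map_id w
  rw [e] at h
  rw [← h]
  rfl

theorem exists_rn {K σ : Type} [Field K] (p : MvPolynomial (Option σ) K)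
    (h : p.degreeOf none = 0) : ∃ q : MvPolynomial σ K, rename some q = p := by
  refine exists_rename_eq_of_vars_subset_range p some (Option.some_injective σ) ?_
  intro o ho
  cases o with
  | some i => exact ⟨i, rfl⟩
  | none =>
    exfalso
    rw [Finset.mem_coe, mem_vars_iff_degreeOf_ne_zero] at ho
    exact ho h

theorem t (h1 : Pool.Agent.Helper3.TG.GENT) (h2 : Pool.Agent.Helper92.ZH.RESE) :
    Pool.Agent.Helper3.TG.GENP := by
  intro K _ _ w hw σ _ _ a b hab Z' hZ'
  classical
  set g : MvPolynomial (Option σ) K := ThP w (some a) (some b) none with hg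
  set ρ : σ → Option σ := fun i => if i = b then none else some i with hρ
  have hρi : Function.Injective ρ := by
    intro i j hij
    simp only [hρ] at hij
    split_ifs at hij with hi hj hj
    · rw [hi, hj]
    · exact Option.some_injective _ hij
  set Q : MvPolynomial (Option σ) K := rename ρ Z' with hQ
  obtain ⟨C0, -, H⟩ := h2 K (Option σ) (Finset.univ.sup fun h => g.degreeOf h)
  have hdeg : 1 ≤ g.degreeOf none := by
    by_contra hcon
    have h0 : g.degreeOf none = 0 := by omega
    obtain ⟨q, hq⟩ := exists_rn g h0
    have ev : ∀ s : K, TH w 0 1 s = eval (fun i => if i = b then (1 : K) else 0) q := by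
      intro s
      have e1 : eval (fun o : Option σ => o.elim s (fun i => if i = b then (1 : K) else 0)) g =
          TH w 0 1 s := by
        rw [hg, eval_ThP]
        simp [hab]
      rw [← e1, ← hq, eval_rename]
      rfl
    have a0 := ev 0
    have a1 := ev 1
    have a2 := ev (-1)
    have : (2 : K) = 0 := by
      have e : TH w 0 1 1 + TH w 0 1 (-1) - 2 * TH w 0 1 (0 : K) = 2 := by
        unfold TH
        ring
      rw [a0, a1, a2] at e
      rw [← e]
      ring
    exact two_ne_zero this
  set N0 := Q.degreeOf none with hN0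
  set N := max 1 (Finset.univ.sup fun h => Q.degreeOf h) with hN
  have hle : ∀ h, Q.degreeOf h ≤ N := fun h =>
    (Finset.le_sup (f := fun h => Q.degreeOf h) (Finset.mem_univ h)).trans (le_max_right _ _)
  obtain ⟨R, hR0, -, -, ⟨α, β, hαβ⟩, hnv⟩ := H none g Q N0 N
    (fun h => Finset.le_sup (f := fun h => g.degreeOf h) (Finset.mem_univ h)) hdeg le_rfl
    (hle none) (le_max_left _ _) hle
  obtain ⟨Z, hZ⟩ := exists_rn R hR0
  refine ⟨Z, ?_, ?_⟩
  · rintro rfl
    rw [map_zero] at hZ
    obtain ⟨Ω, _, _, _, x, hx⟩ := Pool.Agent.Helper44.ZH.NRH.exists_generic K σ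
    have hupd : ∀ s : Ω, Function.update (fun o : Option σ => o.elim 0 x) none s =
        fun o : Option σ => o.elim s x := by
      intro s
      funext o
      cases o with
      | none => simp
      | some i => simp
    refine hnv Ω (fun o : Option σ => o.elim 0 x) ?_ ?_ ?_
    · intro p hp _ hp0
      obtain ⟨q, hq⟩ := exists_rn p hp0
      rw [← hq, aeval_rename]
      intro hz
      have hq0 : q = 0 := by
        refine (injective_iff_map_eq_zero _).1 hx q ?_
        exact hz
      rw [hq0, map_zero] at hq
      exact hp hq.symm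
    · intro s hs
      rw [hupd] at hs ⊢
      rw [hg, aeval_ThP] at hs
      have hind := h1 K w hw σ Ω x s a b hab hx hs
      rw [hQ, aeval_rename]
      have e : (fun o : Option σ => o.elim s x) ∘ ρ = Function.update x b s := by
        funext i
        simp only [hρ, Function.comp]
        by_cases hi : i = b
        · subst hi
          simp
        · rw [if_neg hi, Function.update_of_ne hi]
          rfl
      rw [e]
      intro hz
      exact hZ' ((injective_iff_map_eq_zero _).1 hind Z' hz)
    · rw [← hZ, map_zero]
  · intro x y hxy hev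
    have e1 : eval (fun o : Option σ => o.elim y x) g = 0 := by
      rw [hg, eval_ThP]
      exact hxy
    have e2 : eval (fun o : Option σ => o.elim y x) Q = 0 := by
      rw [hQ, eval_rename]
      have e : (fun o : Option σ => o.elim y x) ∘ ρ = Function.update x b y := by
        funext i
        simp only [hρ, Function.comp]
        by_cases hi : i = b
        · subst hi
          simp
        · rw [if_neg hi, Function.update_of_ne hi]
          rfl
      rw [e]
      exact hev
    have e3 : eval (fun o : Option σ => o.elim y x) R = 0 := by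
      rw [hαβ, map_add, map_mul, map_mul, e1, e2, mul_zero, mul_zero, add_zero]
    rw [← hZ, eval_rename] at e3
    exact e3

end Pool.Agent.Helper20.TG.GENP
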